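import Pool.Agent.Helper30.Final

/-!
# Likelihood-ratio comparison of the subtree polynomials of `G` and `K_n`

For every graph `G` on `n` vertices and all `j ≤ k`,
`s_j(K_n) * s_k(G) ≤ s_k(K_n) * s_j(G)`.
The case `j = n - 1`, `k = n` is the inequality `s_n(K_n) s_{n-1}(G) ≥ s_{n-1}(K_n) s_n(G)`
of the problem file.
-/

namespace Pool.Agent.Results.MP_0669be_co.RatioOrder

/-- `subtreeCount G k` is the number of subtrees of order exactly `k` of the graph `G`:
subgraphs of `G` that are trees and have `k` vertices. -/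
noncomputable def subtreeCount {n : ℕ} (G : SimpleGraph (Fin n)) (k : ℕ) : ℕ :=
  Set.ncard {H : G.Subgraph | H.coe.IsTree ∧ H.verts.ncard = k}

/-- For every graph `G` on `n` vertices and all `j ≤ k`:
`s_j(K_n) s_k(G) ≤ s_k(K_n) s_j(G)`. -/
theorem result (n : ℕ) (G : SimpleGraph (Fin n)) (j k : ℕ) (hjk : j ≤ k) :
    subtreeCount (⊤ : SimpleGraph (Fin n)) j * subtreeCount G k ≤
      subtreeCount (⊤ : SimpleGraph (Fin n)) k * subtreeCount G j := by
  have h := Pool.Agent.Helper30.ratio_all G hjk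
  unfold subtreeCount
  simp only [Pool.Agent.Helper30.ncard_subgraphs]
  have h' : Pool.Agent.Helper30.sub G k * Pool.Agent.Helper30.sub (⊤ : SimpleGraph (Fin n)) j ≤
      Pool.Agent.Helper30.sub G j * Pool.Agent.Helper30.sub (⊤ : SimpleGraph (Fin n)) k := by
    exact_mod_cast h
  linarith [mul_comm (Pool.Agent.Helper30.sub G k)
      (Pool.Agent.Helper30.sub (⊤ : SimpleGraph (Fin n)) j),
    mul_comm (Pool.Agent.Helper30.sub G j) (Pool.Agent.Helper30.sub (⊤ : SimpleGraph (Fin n)) k)]

end Pool.Agent.Results.MP_0669be_co.RatioOrder
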